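import Mathlib

/-!
MP_7a7a2a_an: projected-projected gradient descent with Armijo backtracking can converge to a
non-stationary point of an apocalypse-free set, even when the set is a rectangle of the plane and
the objective is linear.

The rectangle is `[-1,3] × [0,2]`, the objective is `f(x) = -x₀/2 + x₁`, so that
`-∇f = (1/2,-1)`, and the parameters are `αbar = 1`, `β = 1/4`, `c = 1/2`. Started at `(0,4/3)`, the
method takes the step `4^{-k}` at iteration `k` and never reaches the lower side; the iterates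
converge to `(2/3,0)`, where `(1,0)` is a direction of descent.
-/

set_option autoImplicit false

open Filter Topology Set

namespace Pool.Agent.Results.MP_7a7a2a_an.ArmijoTrap

/-- The Euclidean plane. -/
abbrev E2 := EuclideanSpace ℝ (Fin 2)

/-- The Bouligand tangent cone of `X` at `x`: the limits of sequences `v_k` for which there are
`t_k > 0`, `t_k → 0`, with `x + t_k v_k ∈ X`. -/
def tangentCone (X : Set E2) (x : E2) : Set E2 :=
  {v | ∃ (t : ℕ → ℝ) (w : ℕ → E2), (∀ k, 0 < t k) ∧ Tendsto t atTop (𝓝 0) ∧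
    Tendsto w atTop (𝓝 v) ∧ ∀ k, x + t k • w k ∈ X}

/-- `p` is a nearest point of `K` to `w`. -/
def IsNearest (K : Set E2) (w p : E2) : Prop := p ∈ K ∧ ∀ q ∈ K, ‖w - p‖ ≤ ‖w - q‖

/-- `x` is stationary for the minimization of `f` over `X`: `⟨∇f(x), v⟩ ≥ 0` for all tangent
directions `v`. -/
def IsStationary (X : Set E2) (f : E2 → ℝ) (x : E2) : Prop :=
  ∀ v ∈ tangentCone X x, 0 ≤ inner ℝ (gradient f x) v

/-- `X` is apocalypse-free: if `f` is continuously differentiable on an open set containing `X`,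
`x_k ∈ X` converge to `x ∈ X` and `s_f(x_k) = ‖p_k‖ → 0`, where `p_k` is a nearest point of the
tangent cone at `x_k` to `-∇f(x_k)`, then `x` is stationary. -/
def ApocalypseFree (X : Set E2) : Prop :=
  ∀ (U : Set E2) (f : E2 → ℝ) (x : E2) (xs ps : ℕ → E2), IsOpen U → X ⊆ U → ContDiffOn ℝ 1 f U →
    x ∈ X → (∀ k, xs k ∈ X) → Tendsto xs atTop (𝓝 x) →
    (∀ k, IsNearest (tangentCone X (xs k)) (-gradient f (xs k)) (ps k)) →
    Tendsto (fun k => ‖ps k‖) atTop (𝓝 0) → IsStationary X f x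

/-- The Armijo condition for the step `α` at the point `x`, with tangent direction `v`, the
selection `proj` of the metric projection onto `X`, and the constant `c`. -/
def Armijo (f : E2 → ℝ) (proj : E2 → E2) (c : ℝ) (x v : E2) (α : ℝ) : Prop :=
  f (proj (x + α • v)) ≤ f x - c * α * ‖v‖ ^ 2

/-- `x` is a sequence produced by P²GD with Armijo backtracking with parameters `αbar, β, c`:
`proj` is a selection of the metric projection onto `X`, `v k` is a nearest point of the tangent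
cone at `x k` to `-∇f(x k)`, and `x (k+1) = proj (x k + αbar β^j v k)` where `j` is the least
exponent for which the Armijo condition holds. (In particular the backtracking terminates at every
iteration.) -/
structure IsP2GD (X : Set E2) (f : E2 → ℝ) (αbar β c : ℝ) (proj : E2 → E2) (x v : ℕ → E2) :
    Prop where
  start : x 0 ∈ X
  proj_nearest : ∀ z, IsNearest X z (proj z)
  dir_nearest : ∀ k, IsNearest (tangentCone X (x k)) (-gradient f (x k)) (v k)
  step : ∀ k, ∃ j : ℕ, Armijo f proj c (x k) (v k) (αbar * β ^ j) ∧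
    (∀ i < j, ¬ Armijo f proj c (x k) (v k) (αbar * β ^ i)) ∧
    x (k + 1) = proj (x k + (αbar * β ^ j) • v k)

theorem cone_smul {X : Set E2} {x v : E2} (h : v ∈ tangentCone X x) {s : ℝ} (hs : 0 < s) :
    s • v ∈ tangentCone X x := by
  obtain ⟨t, w, h1, h2, h3, h4⟩ := h
  refine ⟨fun k => t k / s, fun k => s • w k, fun k => div_pos (h1 k) hs, ?_, h3.const_smul s,
    fun k => ?_⟩
  · simpa using h2.div_const s
  · rw [smul_smul, div_mul_cancel₀ _ hs.ne']
    exact h4 k

theorem zero_mem_cone {X : Set E2} {x : E2} (hx : x ∈ X) : (0 : E2) ∈ tangentCone X x := by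
  refine ⟨fun k => 1 / ((k : ℝ) + 1), fun _ => 0, fun k => by positivity,
    tendsto_one_div_add_atTop_nhds_zero_nat, tendsto_const_nhds, fun k => by simpa using hx⟩

/-- Directions to points of a convex set are tangent. -/
theorem sub_mem_cone {X : Set E2} (hX : Convex ℝ X) {x y : E2} (hx : x ∈ X) (hy : y ∈ X) :
    y - x ∈ tangentCone X x := by
  refine ⟨fun k => 1 / ((k : ℝ) + 1), fun _ => y - x, fun k => by positivity,
    tendsto_one_div_add_atTop_nhds_zero_nat, tendsto_const_nhds, fun k => ?_⟩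
  apply hX.add_smul_sub_mem hx hy
  refine ⟨by positivity, ?_⟩
  rw [div_le_one (by positivity)]
  have : (0 : ℝ) ≤ k := by positivity
  linarith

/-- If `p` is a nearest point of a cone to `w`, then `⟨w, v⟩ ≤ ‖p‖ ‖v‖` on the cone. -/
theorem inner_le {X : Set E2} {x w p v : E2}
    (hp : IsNearest (tangentCone X x) w p) (hv : v ∈ tangentCone X x) :
    inner ℝ w v ≤ ‖p‖ * ‖v‖ := by
  -- `⟨w, p⟩ = ‖p‖²`
  have hsq : ∀ q ∈ tangentCone X x, ‖w - p‖ ^ 2 ≤ ‖w - q‖ ^ 2 := fun q hq =>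
    pow_le_pow_left₀ (norm_nonneg _) (hp.2 q hq) 2
  have e : ∀ q : E2, ‖w - q‖ ^ 2 = ‖w‖ ^ 2 - 2 * inner ℝ w q + ‖q‖ ^ 2 := fun q => by
    rw [@norm_sub_sq_real]
  have hwp : inner ℝ w p = ‖p‖ ^ 2 := by
    have h1 : ∀ s : ℝ, 0 < s → 2 * (s - 1) * inner ℝ w p ≤ (s ^ 2 - 1) * ‖p‖ ^ 2 := by
      intro s hs
      have h2 := hsq _ (cone_smul hp.1 hs)
      rw [e, e, inner_smul_right, norm_smul, Real.norm_eq_abs, mul_pow, sq_abs] at h2
      nlinarith
    apply le_antisymm
    · -- let `s ↓ 1`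
      have h3 : ∀ s : ℝ, 1 < s → inner ℝ w p ≤ (s + 1) / 2 * ‖p‖ ^ 2 := by
        intro s hs
        have h4 := h1 s (by linarith)
        have h5 : 0 < s - 1 := by linarith
        have h6 : 2 * (s - 1) * (inner ℝ w p - (s + 1) / 2 * ‖p‖ ^ 2) ≤ 0 := by nlinarith
        by_contra h7
        push Not at h7
        have : 0 < 2 * (s - 1) * (inner ℝ w p - (s + 1) / 2 * ‖p‖ ^ 2) :=
          mul_pos (by linarith) (by linarith)
        linarith
      have h8 : Tendsto (fun s : ℝ => (s + 1) / 2 * ‖p‖ ^ 2) (𝓝[>] 1) (𝓝 ((1 + 1) / 2 * ‖p‖ ^ 2)) := by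
        apply Tendsto.mono_left _ nhdsWithin_le_nhds
        exact (Continuous.tendsto (by fun_prop) 1)
      have h9 := ge_of_tendsto h8 (by
        filter_upwards [self_mem_nhdsWithin] with s hs using h3 s hs)
      simpa using h9
    · have h3 : ∀ s : ℝ, 0 < s → s < 1 → (s + 1) / 2 * ‖p‖ ^ 2 ≤ inner ℝ w p := by
        intro s hs0 hs
        have h4 := h1 s hs0
        have h6 : 2 * (1 - s) * ((s + 1) / 2 * ‖p‖ ^ 2 - inner ℝ w p) ≤ 0 := by nlinarith
        by_contra h7
        push Not at h7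
        have : 0 < 2 * (1 - s) * ((s + 1) / 2 * ‖p‖ ^ 2 - inner ℝ w p) :=
          mul_pos (by linarith) (by linarith)
        linarith
      have h8 : Tendsto (fun s : ℝ => (s + 1) / 2 * ‖p‖ ^ 2) (𝓝[<] 1) (𝓝 ((1 + 1) / 2 * ‖p‖ ^ 2)) := by
        apply Tendsto.mono_left _ nhdsWithin_le_nhds
        exact (Continuous.tendsto (by fun_prop) 1)
      have h9 := le_of_tendsto h8 (by
        have : Ioo (0 : ℝ) 1 ∈ 𝓝[<] (1 : ℝ) := Ioo_mem_nhdsLT (by norm_num)
        filter_upwards [this] with s hs using h3 s hs.1 hs.2)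
      simpa using h9
  -- `2 t ⟨w, v⟩ ≤ t² ‖v‖² + ‖p‖²`
  have h1 : ∀ t : ℝ, 0 < t → 2 * t * inner ℝ w v ≤ t ^ 2 * ‖v‖ ^ 2 + ‖p‖ ^ 2 := by
    intro t ht
    have h2 := hsq _ (cone_smul hv ht)
    rw [e, e, hwp, inner_smul_right, norm_smul, Real.norm_eq_abs, mul_pow, sq_abs] at h2
    nlinarith
  rcases (norm_nonneg v).eq_or_lt with hv0 | hv0
  · have : v = 0 := norm_eq_zero.1 hv0.symm
    simp [this]
  rcases (norm_nonneg p).eq_or_lt with hp0 | hp0
  · -- `p = 0`
    rw [← hp0, zero_mul]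
    by_contra h3
    push Not at h3
    have h4 := h1 (inner ℝ w v / ‖v‖ ^ 2) (by positivity)
    rw [← hp0] at h4
    have h5 : (inner ℝ w v / ‖v‖ ^ 2) ^ 2 * ‖v‖ ^ 2 = inner ℝ w v / ‖v‖ ^ 2 * inner ℝ w v := by
      field_simp
    rw [h5] at h4
    have h6 : 0 < inner ℝ w v / ‖v‖ ^ 2 * inner ℝ w v := by positivity
    nlinarith
  · have h4 := h1 (‖p‖ / ‖v‖) (by positivity)
    have h5 : (‖p‖ / ‖v‖) ^ 2 * ‖v‖ ^ 2 = ‖p‖ ^ 2 := by field_simp
    rw [h5] at h4
    have h6 : ‖p‖ / ‖v‖ * inner ℝ w v ≤ ‖p‖ ^ 2 := by nlinarith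
    have h7 : inner ℝ w v = (‖v‖ / ‖p‖) * (‖p‖ / ‖v‖ * inner ℝ w v) := by field_simp
    rw [h7]
    calc (‖v‖ / ‖p‖) * (‖p‖ / ‖v‖ * inner ℝ w v) ≤ (‖v‖ / ‖p‖) * ‖p‖ ^ 2 :=
          mul_le_mul_of_nonneg_left h6 (by positivity)
      _ = ‖p‖ * ‖v‖ := by field_simp

/-- Convex sets are apocalypse-free. -/
theorem convex_apocalypseFree {X : Set E2} (hX : Convex ℝ X) : ApocalypseFree X := by
  intro U f x xs ps hU hXU hf hx hxs hlim hps hps0
  have hgrad : Tendsto (fun k => gradient f (xs k)) atTop (𝓝 (gradient f x)) := by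
    have h1 : ContinuousOn (fderiv ℝ f) U := hf.continuousOn_fderiv_of_isOpen hU le_rfl
    have h2 : ContinuousAt (fderiv ℝ f) x := h1.continuousAt (hU.mem_nhds (hXU hx))
    have h3 : Tendsto (fun k => fderiv ℝ f (xs k)) atTop (𝓝 (fderiv ℝ f x)) := h2.tendsto.comp hlim
    exact ((InnerProductSpace.toDual ℝ E2).symm.continuous.tendsto _).comp h3
  have hkey : ∀ y ∈ X, 0 ≤ inner ℝ (gradient f x) (y - x) := by
    intro y hy
    have h1 : ∀ k, inner ℝ (-gradient f (xs k)) (y - xs k) ≤ ‖ps k‖ * ‖y - xs k‖ := fun k =>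
      inner_le (hps k) (sub_mem_cone hX (hxs k) hy)
    have h2 : Tendsto (fun k => inner ℝ (-gradient f (xs k)) (y - xs k)) atTop
        (𝓝 (inner ℝ (-gradient f x) (y - x))) := (hgrad.neg).inner (tendsto_const_nhds.sub hlim)
    have h3 : Tendsto (fun k => ‖ps k‖ * ‖y - xs k‖) atTop (𝓝 (0 * ‖y - x‖)) :=
      hps0.mul (tendsto_const_nhds.sub hlim).norm
    have h4 := le_of_tendsto_of_tendsto' h2 h3 h1
    rw [inner_neg_left, zero_mul] at h4
    linarith
  rintro v ⟨t, w, h1, h2, h3, h4⟩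
  have h5 : ∀ k, 0 ≤ inner ℝ (gradient f x) (w k) := by
    intro k
    have h6 := hkey _ (h4 k)
    rw [add_sub_cancel_left, inner_smul_right] at h6
    exact nonneg_of_mul_nonneg_right h6 (h1 k)
  exact ge_of_tendsto' (tendsto_const_nhds.inner h3) h5

/-- The rectangle `[-1,3] × [0,2]`. -/
def box : Set E2 := {x | -1 ≤ x 0 ∧ x 0 ≤ 3 ∧ 0 ≤ x 1 ∧ x 1 ≤ 2}

/-- The linear objective `f(x) = -x₀/2 + x₁`. -/
noncomputable def obj : E2 →L[ℝ] ℝ :=
  (-(1 / 2 : ℝ)) • EuclideanSpace.proj (0 : Fin 2) + EuclideanSpace.proj (1 : Fin 2)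

theorem obj_apply (x : E2) : obj x = -(1 / 2) * x 0 + x 1 := by
  simp [obj]

/-- `-∇f = (1/2, -1)`. -/
noncomputable def dir : E2 := !₂[1 / 2, -1]

theorem grad_obj (x : E2) : gradient obj x = -dir := by
  have h : HasGradientAt obj (-dir) x := by
    rw [hasGradientAt_iff_hasFDerivAt]
    have : (InnerProductSpace.toDual ℝ E2) (-dir) = obj := by
      ext z
      rw [InnerProductSpace.toDual_apply_apply, obj_apply, inner_neg_left,
        EuclideanSpace.inner_eq_star_dotProduct]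
      simp [dir, dotProduct, Fin.sum_univ_two]
      ring
    rw [this]
    exact obj.hasFDerivAt
  exact h.gradient

/-- The iterates. -/
noncomputable def it (k : ℕ) : E2 := !₂[(2 / 3) * (1 - (1 / 4) ^ k), (4 / 3) * (1 / 4) ^ k]

/-- The clamping selection of the metric projection onto the rectangle. -/
noncomputable def clamp (z : E2) : E2 := !₂[max (-1) (min 3 (z 0)), max 0 (min 2 (z 1))]

theorem clamp1 {a b z q : ℝ} (hab : a ≤ b) (h1 : a ≤ q) (h2 : q ≤ b) :
    (z - max a (min b z)) ^ 2 ≤ (z - q) ^ 2 := by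
  rcases le_total z a with h | h
  · rw [min_eq_right (h.trans hab), max_eq_left h]
    nlinarith
  · rcases le_total z b with h' | h'
    · rw [min_eq_right h', max_eq_right h]
      simp
      positivity
    · rw [min_eq_left h', max_eq_right hab]
      nlinarith

theorem clamp_nearest (z : E2) : IsNearest box z (clamp z) := by
  refine ⟨⟨by simp [clamp], ?_, by simp [clamp], ?_⟩, fun q hq => ?_⟩
  · simp [clamp]; norm_num
  · simp [clamp]
  · rw [EuclideanSpace.norm_eq, EuclideanSpace.norm_eq]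
    apply Real.sqrt_le_sqrt
    simp only [Fin.sum_univ_two, Real.norm_eq_abs, sq_abs, PiLp.sub_apply]
    have h1 := clamp1 (a := -1) (b := 3) (z := z 0) (q := q 0) (by norm_num) hq.1 hq.2.1
    have h2 := clamp1 (a := 0) (b := 2) (z := z 1) (q := q 1) (by norm_num) hq.2.2.1 hq.2.2.2
    simp only [clamp]
    simp
    linarith

theorem box_convex : Convex ℝ box := by
  intro x hx y hy a b ha hb hab
  obtain ⟨h1, h2, h3, h4⟩ := hx
  obtain ⟨g1, g2, g3, g4⟩ := hy
  refine ⟨?_, ?_, ?_, ?_⟩ <;> simp only [PiLp.add_apply, PiLp.smul_apply, smul_eq_mul] <;> nlinarith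

theorem box_closed : IsClosed box := by
  have h : ∀ i : Fin 2, Continuous fun x : E2 => x i := fun i => by fun_prop
  exact (isClosed_le continuous_const (h 0)).inter ((isClosed_le (h 0) continuous_const).inter
    ((isClosed_le continuous_const (h 1)).inter (isClosed_le (h 1) continuous_const)))

theorem box_bounded : Bornology.IsBounded box := by
  rw [isBounded_iff_forall_norm_le]
  refine ⟨5, fun x hx => ?_⟩
  obtain ⟨h1, h2, h3, h4⟩ := hx
  rw [EuclideanSpace.norm_eq, Real.sqrt_le_left (by norm_num)]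
  simp only [Fin.sum_univ_two, Real.norm_eq_abs, sq_abs]
  nlinarith

theorem pow_bounds (k : ℕ) : 0 < ((1 / 4 : ℝ)) ^ k ∧ ((1 / 4 : ℝ)) ^ k ≤ 1 :=
  ⟨by positivity, pow_le_one₀ (by norm_num) (by norm_num)⟩

/-- At interior points every direction is tangent. -/
theorem cone_interior (k : ℕ) (v : E2) : v ∈ tangentCone box (it k) := by
  obtain ⟨h1, h2⟩ := pow_bounds k
  have hint : box ∈ 𝓝 (it k) := by
    have h : ∀ i : Fin 2, Continuous fun x : E2 => x i := fun i => by fun_prop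
    have e0 : (it k) 0 = (2 / 3) * (1 - (1 / 4) ^ k) := by simp [it]
    have e1 : (it k) 1 = (4 / 3) * (1 / 4) ^ k := by simp [it]
    have a1 : ∀ᶠ x in 𝓝 (it k), -1 < x 0 :=
      (h 0).continuousAt.eventually (eventually_gt_nhds (by show -1 < (it k) 0; rw [e0]; linarith))
    have a2 : ∀ᶠ x in 𝓝 (it k), x 0 < 3 :=
      (h 0).continuousAt.eventually (eventually_lt_nhds (by show (it k) 0 < 3; rw [e0]; linarith))
    have a3 : ∀ᶠ x in 𝓝 (it k), 0 < x 1 :=
      (h 1).continuousAt.eventually (eventually_gt_nhds (by show 0 < (it k) 1; rw [e1]; linarith))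
    have a4 : ∀ᶠ x in 𝓝 (it k), x 1 < 2 :=
      (h 1).continuousAt.eventually (eventually_lt_nhds (by show (it k) 1 < 2; rw [e1]; linarith))
    filter_upwards [a1, a2, a3, a4] with x b1 b2 b3 b4
    exact ⟨b1.le, b2.le, b3.le, b4.le⟩
  have hlim : Tendsto (fun n : ℕ => it k + (1 / ((n : ℝ) + 1)) • v) atTop (𝓝 (it k)) := by
    have := (tendsto_one_div_add_atTop_nhds_zero_nat (𝕜 := ℝ)).smul_const v
    simpa using this.const_add (it k)
  obtain ⟨N, hN⟩ := eventually_atTop.1 (hlim.eventually hint)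
  refine ⟨fun n => 1 / (((n + N : ℕ) : ℝ) + 1), fun _ => v, fun n => by positivity, ?_,
    tendsto_const_nhds, fun n => hN (n + N) (by omega)⟩
  exact (tendsto_one_div_add_atTop_nhds_zero_nat (𝕜 := ℝ)).comp (tendsto_add_atTop_nat N)

theorem norm_dir : ‖dir‖ ^ 2 = 5 / 4 := by
  rw [EuclideanSpace.norm_eq, Real.sq_sqrt (by positivity)]
  simp [dir, Fin.sum_univ_two]
  norm_num

/-- The accepted step. -/
theorem step_eq (k : ℕ) : clamp (it k + (1 * (1 / 4 : ℝ) ^ k) • dir) = it (k + 1) := by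
  obtain ⟨h1, h2⟩ := pow_bounds k
  have e0 : (it k + (1 * (1 / 4 : ℝ) ^ k) • dir) 0 = (2 / 3) * (1 - (1 / 4) ^ (k + 1)) := by
    simp [it, dir, pow_succ]; ring
  have e1 : (it k + (1 * (1 / 4 : ℝ) ^ k) • dir) 1 = (4 / 3) * (1 / 4) ^ (k + 1) := by
    simp [it, dir, pow_succ]; ring
  obtain ⟨h3, h4⟩ := pow_bounds (k + 1)
  unfold clamp
  rw [e0, e1, min_eq_right (by linarith), min_eq_right (by linarith), max_eq_right (by linarith),
    max_eq_right (by linarith)]
  rfl

/-- The run. -/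
theorem run : IsP2GD box obj 1 (1 / 4) (1 / 2) clamp it (fun _ => dir) := by
  refine ⟨?_, clamp_nearest, fun k => ?_, fun k => ⟨k, ?_, ?_, (step_eq k).symm⟩⟩
  · constructor <;> norm_num [it]
  · rw [grad_obj, neg_neg]
    exact ⟨cone_interior k _, fun q _ => by simp⟩
  · unfold Armijo
    rw [step_eq, norm_dir, obj_apply, obj_apply]
    obtain ⟨h1, h2⟩ := pow_bounds k
    have d0 : (it k) 0 = (2 / 3) * (1 - (1 / 4) ^ k) := rfl
    have d1 : (it k) 1 = (4 / 3) * (1 / 4) ^ k := rfl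
    have f0 : (it (k + 1)) 0 = (2 / 3) * (1 - (1 / 4) ^ (k + 1)) := rfl
    have f1 : (it (k + 1)) 1 = (4 / 3) * (1 / 4) ^ (k + 1) := rfl
    rw [d0, d1, f0, f1, pow_succ]
    linarith
  · intro i hi
    unfold Armijo
    rw [norm_dir, obj_apply, obj_apply]
    obtain ⟨h1, h2⟩ := pow_bounds k
    obtain ⟨g1, g2⟩ := pow_bounds i
    have hik : 4 * ((1 / 4 : ℝ)) ^ k ≤ (1 / 4 : ℝ) ^ i := by
      have h5 : ((1 / 4 : ℝ)) ^ k ≤ (1 / 4 : ℝ) ^ (i + 1) :=
        pow_le_pow_of_le_one (by norm_num) (by norm_num) hi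
      rw [pow_succ] at h5
      linarith
    have e0 : (it k + (1 * (1 / 4 : ℝ) ^ i) • dir) 0 =
        (2 / 3) * (1 - (1 / 4) ^ k) + (1 / 4) ^ i * (1 / 2) := by
      simp [it, dir]
    have e1 : (it k + (1 * (1 / 4 : ℝ) ^ i) • dir) 1 = (4 / 3) * (1 / 4) ^ k - (1 / 4) ^ i := by
      simp [it, dir]; ring
    have c0 : (clamp (it k + (1 * (1 / 4 : ℝ) ^ i) • dir)) 0 =
        (2 / 3) * (1 - (1 / 4) ^ k) + (1 / 4) ^ i * (1 / 2) := by
      have : (clamp (it k + (1 * (1 / 4 : ℝ) ^ i) • dir)) 0 =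
        max (-1) (min 3 ((it k + (1 * (1 / 4 : ℝ) ^ i) • dir) 0)) := rfl
      rw [this, e0, min_eq_right (by linarith), max_eq_right (by linarith)]
    have c1 : (clamp (it k + (1 * (1 / 4 : ℝ) ^ i) • dir)) 1 = 0 := by
      have : (clamp (it k + (1 * (1 / 4 : ℝ) ^ i) • dir)) 1 =
        max 0 (min 2 ((it k + (1 * (1 / 4 : ℝ) ^ i) • dir) 1)) := rfl
      rw [this, e1, min_eq_right (by linarith), max_eq_left (by linarith)]
    have d0 : (it k) 0 = (2 / 3) * (1 - (1 / 4) ^ k) := rfl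
    have d1 : (it k) 1 = (4 / 3) * (1 / 4) ^ k := rfl
    rw [c0, c1, d0, d1]
    push Not
    linarith

theorem lim_it : Tendsto it atTop (𝓝 (!₂[2 / 3, 0] : E2)) := by
  have h0 : Tendsto (fun k : ℕ => ((1 / 4 : ℝ)) ^ k) atTop (𝓝 0) :=
    tendsto_pow_atTop_nhds_zero_of_lt_one (by norm_num) (by norm_num)
  have hcont : Continuous fun s : ℝ => (!₂[(2 / 3) * (1 - s), (4 / 3) * s] : E2) := by
    apply (PiLp.continuous_toLp 2 _).comp
    apply continuous_pi
    intro i
    fin_cases i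
    · simp; fun_prop
    · simp; fun_prop
  have h1 := (hcont.tendsto 0).comp h0
  have h2 : (!₂[(2 / 3) * (1 - (0 : ℝ)), (4 / 3) * 0] : E2) = !₂[2 / 3, 0] := by norm_num
  rw [h2] at h1
  exact h1

/-- There are a compact convex set `X` of the plane (a rectangle) with nonempty interior, which is
apocalypse-free, a linear function `f`, parameters `αbar > 0` and `β, c ∈ (0,1)`, and a sequence
produced by P²GD with Armijo backtracking which converges to a point of `X` that is not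
stationary. -/
theorem result : ∃ (X : Set E2) (f : E2 →L[ℝ] ℝ) (αbar β c : ℝ) (proj : E2 → E2)
    (x v : ℕ → E2) (xbar : E2),
    X.Nonempty ∧ IsCompact X ∧ Convex ℝ X ∧ (interior X).Nonempty ∧ ApocalypseFree X ∧
    0 < αbar ∧ β ∈ Ioo (0 : ℝ) 1 ∧ c ∈ Ioo (0 : ℝ) 1 ∧
    IsP2GD X f αbar β c proj x v ∧
    Tendsto x atTop (𝓝 xbar) ∧ xbar ∈ X ∧ ¬ IsStationary X f xbar := by
  have hbar : (!₂[2 / 3, 0] : E2) ∈ box := by
    constructor <;> norm_num
  refine ⟨box, obj, 1, 1 / 4, 1 / 2, clamp, it, fun _ => dir, !₂[2 / 3, 0], ⟨_, hbar⟩, ?_,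
    box_convex, ?_, convex_apocalypseFree box_convex, one_pos, by norm_num, by norm_num, run,
    lim_it, hbar, fun hst => ?_⟩
  · exact Metric.isCompact_of_isClosed_isBounded box_closed box_bounded
  · refine ⟨!₂[1, 1], mem_interior.2 ⟨{x : E2 | 0 < x 0 ∧ x 0 < 2 ∧ 0 < x 1 ∧ x 1 < 2}, ?_, ?_, ?_⟩⟩
    · rintro x ⟨h1, h2, h3, h4⟩
      exact ⟨by linarith, by linarith, h3.le, h4.le⟩
    · have h : ∀ i : Fin 2, Continuous fun x : E2 => x i := fun i => by fun_prop
      exact (isOpen_lt continuous_const (h 0)).inter ((isOpen_lt (h 0) continuous_const).inter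
        ((isOpen_lt continuous_const (h 1)).inter (isOpen_lt (h 1) continuous_const)))
    · simp
  · have hy : (!₂[1, 0] : E2) ∈ box := by
      constructor <;> norm_num
    have h1 := hst _ (sub_mem_cone box_convex hbar hy)
    rw [grad_obj, inner_neg_left, EuclideanSpace.inner_eq_star_dotProduct] at h1
    simp [dir, dotProduct, Fin.sum_univ_two] at h1
    norm_num at h1

end Pool.Agent.Results.MP_7a7a2a_an.ArmijoTrap
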